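import Pool.Agent.QSP.Sum
import Pool.Agent.QS.Trans

/-! # Relations of linear combinations, and the transfer to a point without relations of low degree -/

namespace Pool.Agent.QS

open MvPolynomial

section
variable {K : Type} [Field K] {k : ℕ}

/-- scaling by a constant -/
theorem Ex_scale {d : ℕ} {η : Om K k} (h : Ex K k d η) (c : K) :
    Ex K k d (algebraMap K (Om K k) c * η) := by
  obtain ⟨P, hP0, hPw, hP⟩ := (Ex_iff d η).1 h
  refine (Ex_iff d _).2 ⟨P.scaleRoots (C c), ?_, ?_, ?_⟩
  · exact Polynomial.scaleRoots_ne_zero hP0 _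
  · refine wd_le _ _ fun j hj => ?_
    rw [Polynomial.coeff_scaleRoots] at hj ⊢
    have h0 : P.coeff j ≠ 0 := left_ne_zero_of_mul hj
    refine le_trans ?_ ((le_wd P j h0).trans hPw)
    refine Nat.add_le_add_right ((totalDegree_mul _ _).trans ?_) j
    rw [← C_pow, totalDegree_C, add_zero]
  · have h1 := Polynomial.scaleRoots_aeval_eq_zero (R := A K k) (r := C c) hP
    have h2 : algebraMap (A K k) (Om K k) (C c) = algebraMap K (Om K k) c := by
      rw [← MvPolynomial.algebraMap_eq, ← IsScalarTower.algebraMap_apply]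
    rwa [h2] at h1

/-- linear combinations of `ρ` elements have relations of degree `d ^ ρ` -/
theorem Ex_sum {d : ℕ} (s : Finset ℕ) (η : ℕ → Om K k) (h : ∀ a ∈ s, Ex K k d (η a))
    (c : ℕ → K) : Ex K k (d ^ s.card) (∑ a ∈ s, algebraMap K (Om K k) (c a) * η a) := by
  classical
  induction s using Finset.induction_on with
  | empty =>
    rw [Finset.sum_empty, Finset.card_empty, pow_zero]
    exact TransAux.Ex_zero K k one_pos
  | insert a s ha ih =>
    rw [Finset.sum_insert ha, Finset.card_insert_of_notMem ha, pow_succ, mul_comm (d ^ s.card)]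
    exact Ex_add (Ex_scale (h a (Finset.mem_insert_self a s)) _)
      (ih fun b hb => h b (Finset.mem_insert_of_mem hb))

theorem Ex_sum_fin {d ρ : ℕ} (η : Fin ρ → Om K k) (h : ∀ a, Ex K k d (η a))
    (c : Fin ρ → K) : Ex K k (d ^ ρ) (∑ a, algebraMap K (Om K k) (c a) * η a) := by
  have h1 := Ex_sum (d := d) (Finset.range ρ) (fun n => if hn : n < ρ then η ⟨n, hn⟩ else 0)
    (fun a ha => by
      have h2 := Finset.mem_range.1 ha
      simp only [dif_pos h2]
      exact h _) (fun n => if hn : n < ρ then c ⟨n, hn⟩ else 0)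
  rw [Finset.card_range, Finset.sum_range] at h1
  have h2 : ∑ a : Fin ρ, algebraMap K (Om K k) (c a) * η a =
      ∑ i : Fin ρ, algebraMap K (Om K k) (if hn : (i : ℕ) < ρ then c ⟨i, hn⟩ else 0) *
        (if hn : (i : ℕ) < ρ then η ⟨i, hn⟩ else 0) := by
    refine Finset.sum_congr rfl fun a _ => ?_
    rw [dif_pos a.2, dif_pos a.2]
  rw [h2]
  exact h1

/-- an element with a relation of degree `D` is a zero of an irreducible polynomial of degree at
most `D` -/
theorem exists_irreducible {D : ℕ} {z : Om K k} (h : Ex K k D z) :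
    ∃ N : Polynomial (A K k), Irreducible N ∧ wd N ≤ D ∧ Polynomial.aeval z N = 0 := by
  classical
  obtain ⟨G, hG0, hGw, hG⟩ := (Ex_iff D z).1 h
  have h1 : ∃ N : Polynomial (A K k), Irreducible N ∧ N ∣ G ∧ Polynomial.aeval z N = 0 := by
    have h2 := UniqueFactorizationMonoid.factors_prod hG0
    obtain ⟨u, hu⟩ := h2
    have h3 : Polynomial.aeval z (UniqueFactorizationMonoid.factors G).prod = 0 := by
      have h4 := congrArg (Polynomial.aeval z) hu
      rw [hG, map_mul] at h4
      refine (mul_eq_zero.1 h4).resolve_right ?_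
      exact ((Units.isUnit u).map (Polynomial.aeval z : Polynomial (A K k) →ₐ[A K k] Om K k)).ne_zero
    rw [map_multiset_prod, Multiset.prod_eq_zero_iff] at h3
    obtain ⟨N, hN, hN0⟩ := Multiset.mem_map.1 h3
    exact ⟨N, UniqueFactorizationMonoid.irreducible_of_factor N hN,
      UniqueFactorizationMonoid.dvd_of_mem_factors hN, hN0⟩
  obtain ⟨N, hNi, ⟨M, hM⟩, hN0⟩ := h1
  have hM0 : M ≠ 0 := by
    rintro rfl
    rw [mul_zero] at hM
    exact hG0 hM
  refine ⟨N, hNi, ?_, hN0⟩
  refine le_trans ?_ hGw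
  rw [hM, wd_mul N M hNi.ne_zero hM0]
  exact Nat.le_add_right _ _

/-- if the resultant with an irreducible polynomial is zero then its zeros are zeros -/
theorem zero_of_resultant {z : Om K k} {N P : Polynomial (A K k)} (hN : Irreducible N)
    (hz : Polynomial.aeval z N = 0) (h : Polynomial.resultant N P = 0) :
    Polynomial.aeval z P = 0 := by
  have hinj : Function.Injective (algebraMap (A K k) (Q K k)) := IsFractionRing.injective _ _
  have hdeg := natDegree_pos z N hN.ne_zero hz
  have hprim : N.IsPrimitive := hN.isPrimitive hdeg.ne'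
  have hirr : Irreducible (N.map (algebraMap (A K k) (Q K k))) :=
    (hprim.irreducible_iff_irreducible_map_fraction_map).1 hN
  have h1 : Polynomial.resultant (N.map (algebraMap (A K k) (Q K k)))
      (P.map (algebraMap (A K k) (Q K k))) = 0 := by
    rw [Polynomial.natDegree_map_eq_of_injective hinj, Polynomial.natDegree_map_eq_of_injective hinj,
      Polynomial.resultant_map_map, h, map_zero]
  have h2 := (Polynomial.resultant_eq_zero_iff.1 h1).2
  have h3 : N.map (algebraMap (A K k) (Q K k)) ∣ P.map (algebraMap (A K k) (Q K k)) := by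
    by_contra h4
    exact h2 ((hirr.coprime_iff_not_dvd).2 h4)
  obtain ⟨M, hM⟩ := h3
  have h4 := congrArg (Polynomial.aeval z) hM
  rw [map_mul, Polynomial.aeval_map_algebraMap, Polynomial.aeval_map_algebraMap, hz, zero_mul] at h4
  exact h4

end

/-- `y` satisfies with `x` a nonzero relation of degree at most `d` -/
def ExL (K : Type) {L : Type} [Field K] [Field L] [Algebra K L] {k : ℕ} (d : ℕ) (x : Fin k → L)
    (y : L) : Prop :=
  ∃ P : MvPolynomial (Fin (k + 1)) K, P ≠ 0 ∧ P.totalDegree ≤ d ∧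
    aeval (Fin.cons y x : Fin (k + 1) → L) P = 0

section
variable {K L : Type} [Field K] [Field L] [Algebra K L] {k : ℕ}

theorem aeval_cons_L (x : Fin k → L) (y : L) (P : MvPolynomial (Fin (k + 1)) K) :
    aeval (Fin.cons y x : Fin (k + 1) → L) P =
      Polynomial.eval₂ (aeval x : A K k →ₐ[K] L).toRingHom y (finSuccEquiv K k P) := by
  have h : (aeval (Fin.cons y x : Fin (k + 1) → L) :
      MvPolynomial (Fin (k + 1)) K →ₐ[K] L).toRingHom =
      (Polynomial.eval₂RingHom (aeval x : A K k →ₐ[K] L).toRingHom y).comp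
        (finSuccEquiv K k).toAlgHom.toRingHom := by
    refine MvPolynomial.ringHom_ext (fun a => ?_) fun i => ?_
    · change aeval (Fin.cons y x : Fin (k + 1) → L) (C a) =
        Polynomial.eval₂ (aeval x : A K k →ₐ[K] L).toRingHom y (finSuccEquiv K k (C a))
      rw [aeval_C, ← MvPolynomial.algebraMap_eq, AlgEquiv.commutes,
        IsScalarTower.algebraMap_apply K (A K k) (Polynomial (A K k)), Polynomial.algebraMap_eq,
        Polynomial.eval₂_C]
      exact ((aeval x : A K k →ₐ[K] L).commutes a).symm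
    · refine Fin.cases ?_ (fun j => ?_) i
      · change aeval (Fin.cons y x : Fin (k + 1) → L) (X 0) =
          Polynomial.eval₂ (aeval x : A K k →ₐ[K] L).toRingHom y (finSuccEquiv K k (X 0))
        rw [finSuccEquiv_X_zero, Polynomial.eval₂_X, aeval_X, Fin.cons_zero]
      · change aeval (Fin.cons y x : Fin (k + 1) → L) (X j.succ) =
          Polynomial.eval₂ (aeval x : A K k →ₐ[K] L).toRingHom y (finSuccEquiv K k (X j.succ))
        rw [finSuccEquiv_X_succ, Polynomial.eval₂_C, aeval_X, Fin.cons_succ]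
        exact (aeval_X x j).symm
  exact DFunLike.congr_fun h P

theorem ExL_iff (d : ℕ) (x : Fin k → L) (y : L) : ExL K d x y ↔ ∃ P : Polynomial (A K k),
    P ≠ 0 ∧ wd P ≤ d ∧ Polynomial.eval₂ (aeval x : A K k →ₐ[K] L).toRingHom y P = 0 := by
  constructor
  · rintro ⟨P, hP, hd, h⟩
    refine ⟨finSuccEquiv K k P, ?_, ?_, ?_⟩
    · rwa [Ne, EmbeddingLike.map_eq_zero_iff]
    · rw [← wd_symm, AlgEquiv.symm_apply_apply]
      exact hd
    · rwa [← aeval_cons_L]
  · rintro ⟨P, hP, hd, h⟩
    refine ⟨(finSuccEquiv K k).symm P, ?_, ?_, ?_⟩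
    · rwa [Ne, EmbeddingLike.map_eq_zero_iff]
    · rwa [wd_symm]
    · rwa [aeval_cons_L, AlgEquiv.apply_symm_apply]

/-- values in the subring on which the specialisation is defined -/
theorem spec_eval (x : Fin k → L) (B : Subring (Om K k)) (φ : B →+* L)
    (hφ : ∀ f : A K k, ∃ h : algebraMap (A K k) (Om K k) f ∈ B, φ ⟨_, h⟩ = aeval x f)
    (P : Polynomial (A K k)) (w : Om K k) (hw : w ∈ B) :
    ∃ h : Polynomial.aeval w P ∈ B, φ ⟨_, h⟩ =
      Polynomial.eval₂ (aeval x : A K k →ₐ[K] L).toRingHom (φ ⟨w, hw⟩) P := by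
  choose hm hφ using hφ
  let j : A K k →+* B :=
    { toFun := fun f => ⟨algebraMap (A K k) (Om K k) f, hm f⟩
      map_one' := Subtype.ext (map_one _)
      map_mul' := fun a b => Subtype.ext (map_mul _ a b)
      map_zero' := Subtype.ext (map_zero _)
      map_add' := fun a b => Subtype.ext (map_add _ a b) }
  have h1 : B.subtype.comp j = algebraMap (A K k) (Om K k) := rfl
  have h2 : φ.comp j = (aeval x : A K k →ₐ[K] L).toRingHom := RingHom.ext fun f => hφ f
  have h3 : ((Polynomial.eval₂ j ⟨w, hw⟩ P : B) : Om K k) = Polynomial.aeval w P := by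
    rw [Polynomial.aeval_def, ← h1]
    exact Polynomial.hom_eval₂ P j B.subtype ⟨w, hw⟩
  have h4 : φ (Polynomial.eval₂ j ⟨w, hw⟩ P) =
      Polynomial.eval₂ (aeval x : A K k →ₐ[K] L).toRingHom (φ ⟨w, hw⟩) P := by
    rw [← h2]
    exact Polynomial.hom_eval₂ P j φ ⟨w, hw⟩
  refine ⟨h3 ▸ (Polynomial.eval₂ j ⟨w, hw⟩ P : B).2, ?_⟩
  rw [← h4]
  congr 1
  exact Subtype.ext h3.symm

/-- **Transfer.** For a point `x` without relations of degree at most `d ^ (ρ + 1)` a linear
combination of `ρ` specialised elements satisfies with `x` a relation of degree at most `d` if and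
only if the same combination does so over the generic point. -/
theorem Ex_transfer {d ρ : ℕ} (x : Fin k → L)
    (hx : ∀ f : A K k, f.totalDegree ≤ d ^ (ρ + 1) → aeval x f = 0 → f = 0)
    (B : Subring (Om K k)) (φ : B →+* L)
    (hφ : ∀ f : A K k, ∃ h : algebraMap (A K k) (Om K k) f ∈ B, φ ⟨_, h⟩ = aeval x f)
    (β : Fin ρ → Om K k) (hβ : ∀ a, β a ∈ B) (hE : ∀ a, Ex K k d (β a)) (c : Fin ρ → K) :
    ExL K d x (∑ a, algebraMap K L (c a) * φ ⟨β a, hβ a⟩) ↔
      Ex K k d (∑ a, algebraMap K (Om K k) (c a) * β a) := by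
  classical
  -- the linear combination in `B`
  have hcB : ∀ a : K, ∃ h : algebraMap K (Om K k) a ∈ B, φ ⟨_, h⟩ = algebraMap K L a := by
    intro a
    obtain ⟨h, h'⟩ := hφ (C a)
    have h2 : algebraMap (A K k) (Om K k) (C a) = algebraMap K (Om K k) a := by
      rw [← MvPolynomial.algebraMap_eq, ← IsScalarTower.algebraMap_apply]
    refine ⟨h2 ▸ h, ?_⟩
    rw [aeval_C] at h'
    rw [← h']
    congr 1
  choose hcm hcφ using hcB
  let zB : B := ∑ a, ⟨algebraMap K (Om K k) (c a), hcm _⟩ * ⟨β a, hβ a⟩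
  have hz1 : (zB : Om K k) = ∑ a, algebraMap K (Om K k) (c a) * β a := by
    change B.subtype zB = _
    simp only [zB, map_sum, map_mul]
    rfl
  have hz2 : φ zB = ∑ a, algebraMap K L (c a) * φ ⟨β a, hβ a⟩ := by
    simp only [zB, map_sum, map_mul, hcφ]
  rw [← hz1, ← hz2]
  have hsp : ∀ P : Polynomial (A K k), ∃ h : Polynomial.aeval (zB : Om K k) P ∈ B, φ ⟨_, h⟩ =
      Polynomial.eval₂ (aeval x : A K k →ₐ[K] L).toRingHom (φ zB) P := fun P =>
    spec_eval x B φ hφ P _ zB.2
  constructor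
  · intro h
    obtain ⟨P, hP0, hPw, hP⟩ := (ExL_iff d x _).1 h
    have hzE : Ex K k (d ^ ρ) (zB : Om K k) := by
      rw [hz1]
      exact Ex_sum_fin β hE c
    obtain ⟨N, hNi, hNw, hN⟩ := exists_irreducible hzE
    have hNL : Polynomial.eval₂ (aeval x : A K k →ₐ[K] L).toRingHom (φ zB) N = 0 := by
      obtain ⟨h1, h2⟩ := hsp N
      rw [← h2]
      have h3 : (⟨Polynomial.aeval (zB : Om K k) N, h1⟩ : B) = 0 := Subtype.ext hN
      rw [h3, map_zero]
    have hnd : ∀ G : Polynomial (A K k), G ≠ 0 → G.natDegree ≤ wd G := fun G hG =>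
      (Nat.le_add_left _ _).trans (le_wd G _ (Polynomial.leadingCoeff_ne_zero.2 hG))
    have hNd := natDegree_pos _ N hNi.ne_zero hN
    have hS : Polynomial.resultant N P = 0 := by
      apply hx
      · refine (resultant_degree N P hNw hPw ((hnd N hNi.ne_zero).trans hNw)
          ((hnd P hP0).trans hPw)).trans ?_
        rw [pow_succ]
      · obtain ⟨p, q, -, -, hpq⟩ := Polynomial.exists_mul_add_mul_eq_C_resultant N P
          le_rfl le_rfl (Or.inl hNd.ne')
        have h1 := congrArg (Polynomial.eval₂ (aeval x : A K k →ₐ[K] L).toRingHom (φ zB)) hpq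
        rw [Polynomial.eval₂_add, Polynomial.eval₂_mul, Polynomial.eval₂_mul, hNL, hP, zero_mul,
          zero_mul, add_zero, Polynomial.eval₂_C] at h1
        exact h1.symm
    exact (Ex_iff d _).2 ⟨P, hP0, hPw, zero_of_resultant hNi hN hS⟩
  · intro h
    obtain ⟨P, hP0, hPw, hP⟩ := (Ex_iff d _).1 h
    refine (ExL_iff d x _).2 ⟨P, hP0, hPw, ?_⟩
    obtain ⟨h1, h2⟩ := hsp P
    rw [← h2]
    have h3 : (⟨Polynomial.aeval (zB : Om K k) P, h1⟩ : B) = 0 := Subtype.ext hP
    rw [h3, map_zero]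

end

end Pool.Agent.QS
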