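import Pool.Agent.QS.Defs

/-! # A place of the algebraic closure of `K(X)` over a point -/

set_option autoImplicit false

namespace Pool.Agent.QS

open MvPolynomial

namespace Place

theorem alg_inj (K : Type) [Field K] (k : ℕ) :
    Function.Injective (algebraMap (A K k) (Om K k)) := by
  rw [IsScalarTower.algebraMap_eq (A K k) (Q K k) (Om K k)]
  exact (algebraMap (Q K k) (Om K k)).injective.comp (IsFractionRing.injective (A K k) (Q K k))

/-- A valuation ring of the algebraic closure of `K(X)` with centre the ideal of the point `x`. -/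
theorem exists_valuation {K L : Type} [Field K] [Field L] [Algebra K L] {k : ℕ} (x : Fin k → L) :
    ∃ O : ValuationSubring (Om K k), (∀ a : A K k, algebraMap (A K k) (Om K k) a ∈ O) ∧
      ∀ a : A K k, O.valuation (algebraMap (A K k) (Om K k) a) < 1 ↔ aeval x a = 0 := by
  set ι : A K k →+* Om K k := algebraMap (A K k) (Om K k) with hι
  have hιi : Function.Injective ι := alg_inj K k
  let e : A K k ≃+* ι.range := RingEquiv.ofBijective ι.rangeRestrict
    ⟨fun a b h => hιi (congrArg Subtype.val h), ι.rangeRestrict_surjective⟩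
  have he : ∀ a, ((e a : ι.range) : Om K k) = ι a := fun a => rfl
  let ψ : ι.range →+* L := ((aeval x : A K k →ₐ[K] L) : A K k →+* L).comp (e.symm : ι.range →+* A K k)
  have hψ : ∀ a, ψ (e a) = aeval x a := by
    intro a
    change aeval x (e.symm (e a)) = _
    rw [e.symm_apply_apply]
  let P : Ideal ι.range := RingHom.ker ψ
  have hP : P.IsPrime := RingHom.ker_isPrime ψ
  obtain ⟨O, hO, hloc⟩ := (LocalSubring.ofPrime ι.range P).exists_le_valuationSubring
  have hmem : ∀ a, ι a ∈ O := by
    intro a
    apply hO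
    exact LocalSubring.le_ofPrime ι.range P (e a).2
  refine ⟨O, hmem, fun a => ?_⟩
  have hmemR : ι a ∈ (LocalSubring.ofPrime ι.range P).toSubring :=
    LocalSubring.le_ofPrime ι.range P (e a).2
  have hunit : IsUnit (⟨ι a, hmemR⟩ : (LocalSubring.ofPrime ι.range P).toSubring) ↔
      aeval x a ≠ 0 := by
    have h1 := IsLocalization.AtPrime.isUnit_to_map_iff
      (S := (LocalSubring.ofPrime ι.range P).toSubring) P (e a)
    have h2 : (algebraMap ι.range (LocalSubring.ofPrime ι.range P).toSubring) (e a) =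
        ⟨ι a, hmemR⟩ := rfl
    rw [h2] at h1
    rw [h1]
    change ¬ (e a ∈ P) ↔ _
    rw [RingHom.mem_ker, hψ]
  have hO1 : O.valuation (ι a) < 1 ↔ ¬ IsUnit (⟨ι a, hmem a⟩ : O) := by
    rw [ValuationSubring.valuation_eq_one_iff]
    constructor
    · intro h h'
      exact absurd h' h.ne
    · intro h
      exact lt_of_le_of_ne (O.valuation_le_one ⟨ι a, hmem a⟩) h
  rw [hO1]
  have h3 : IsUnit (⟨ι a, hmem a⟩ : O) ↔
      IsUnit (⟨ι a, hmemR⟩ : (LocalSubring.ofPrime ι.range P).toSubring) := by
    constructor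
    · intro h
      exact hloc.map_nonunit ⟨ι a, hmemR⟩ h
    · intro h
      exact h.map (Subring.inclusion hO)
  rw [h3, hunit, not_not]

/-! ### roots -/

section Roots

variable {Ω : Type} [Field Ω] (O : ValuationSubring Ω)

theorem mem_of_root {P : Polynomial O} (hP : IsUnit P.leadingCoeff) {r : Ω}
    (hr : Polynomial.aeval r P = 0) : r ∈ O := by
  obtain ⟨u, hu⟩ := hP
  have hm : (Polynomial.C ((u⁻¹ : Oˣ) : O) * P).Monic := by
    rw [Polynomial.Monic, Polynomial.leadingCoeff_mul, Polynomial.leadingCoeff_C, ← hu]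
    simp
  have hint : IsIntegral O r := ⟨_, hm, by
    rw [← Polynomial.aeval_def, map_mul, hr, mul_zero]⟩
  obtain ⟨y, hy⟩ := IsIntegrallyClosed.isIntegral_iff.1 hint
  rw [← hy]
  exact y.2

variable [IsAlgClosed Ω]

/-- a polynomial with unit leading coefficient is a product of linear factors -/
theorem exists_prod {P : Polynomial O} (hP : IsUnit P.leadingCoeff) :
    ∃ s : Multiset O, P = Polynomial.C P.leadingCoeff *
      (s.map fun a => Polynomial.X - Polynomial.C a).prod := by
  classical
  have hinj : Function.Injective (algebraMap O Ω) := Subtype.val_injective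
  have hlc : (P.map (algebraMap O Ω)).leadingCoeff = algebraMap O Ω P.leadingCoeff :=
    Polynomial.leadingCoeff_map_of_injective hinj P
  have hsp := (IsAlgClosed.splits (P.map (algebraMap O Ω))).eq_prod_roots
  have hroot : ∀ r ∈ (P.map (algebraMap O Ω)).roots, r ∈ O := by
    intro r hr
    refine mem_of_root O hP ?_
    have h1 := (Polynomial.mem_roots'.1 hr).2
    rwa [Polynomial.IsRoot.def, Polynomial.eval_map_algebraMap] at h1
  refine ⟨(P.map (algebraMap O Ω)).roots.map fun r => if h : r ∈ O then ⟨r, h⟩ else 0, ?_⟩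
  apply Polynomial.map_injective _ hinj
  rw [Polynomial.map_mul, Polynomial.map_C, Polynomial.map_multiset_prod, Multiset.map_map,
    Multiset.map_map]
  conv_lhs => rw [hsp, hlc]
  congr 2
  apply Multiset.map_congr rfl
  intro r hr
  simp only [Function.comp_apply, dif_pos (hroot r hr), Polynomial.map_sub, Polynomial.map_X,
    Polynomial.map_C]
  rfl

/-- roots in the residue field lift to roots -/
theorem lift_root {P : Polynomial O} (hP : IsUnit P.leadingCoeff) (η : IsLocalRing.ResidueField O)
    (hη : (P.map (IsLocalRing.residue O)).eval η = 0) :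
    ∃ β : O, P.eval β = 0 ∧ IsLocalRing.residue O β = η := by
  obtain ⟨s, hs⟩ := exists_prod O hP
  have h0 := hη
  rw [hs, Polynomial.map_mul, Polynomial.map_C, Polynomial.map_multiset_prod, Multiset.map_map,
    Polynomial.eval_mul, Polynomial.eval_C, Polynomial.eval_multiset_prod, Multiset.map_map,
    mul_eq_zero] at h0
  have hne : IsLocalRing.residue O P.leadingCoeff ≠ 0 := by
    rw [Ne, IsLocalRing.residue_eq_zero_iff, IsLocalRing.mem_maximalIdeal]
    exact fun h => h hP
  have h1 := h0.resolve_left hne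
  rw [Multiset.prod_eq_zero_iff, Multiset.mem_map] at h1
  obtain ⟨β, hβ, h2⟩ := h1
  refine ⟨β, ?_, ?_⟩
  · rw [hs, Polynomial.eval_mul, Polynomial.eval_multiset_prod, Multiset.map_map]
    rw [Multiset.prod_eq_zero, mul_zero]
    rw [Multiset.mem_map]
    exact ⟨β, hβ, by simp⟩
  · simp only [Function.comp_apply, Polynomial.map_sub, Polynomial.map_X, Polynomial.map_C,
      Polynomial.eval_sub, Polynomial.eval_X, Polynomial.eval_C] at h2
    exact (sub_eq_zero.1 h2).symm

/-- the residue field is algebraically closed -/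
instance isAlgClosed_residue : IsAlgClosed (IsLocalRing.ResidueField O) := by
  apply IsAlgClosed.of_exists_root
  intro p hm hirr
  have hl : p ∈ Polynomial.lifts (IsLocalRing.residue O) :=
    (Polynomial.mem_lifts p).2 (Polynomial.map_surjective _ IsLocalRing.residue_surjective p)
  obtain ⟨P, hPp, hdeg, hPm⟩ := Polynomial.lifts_and_natDegree_eq_and_monic hl hm
  have hd : (P.map (algebraMap O Ω)).degree ≠ 0 := by
    rw [hPm.degree_map, Polynomial.degree_eq_natDegree hPm.ne_zero, hdeg]
    have := hirr.natDegree_pos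
    exact_mod_cast this.ne'
  obtain ⟨r, hr⟩ := IsAlgClosed.exists_root _ hd
  have hr' : Polynomial.aeval r P = 0 := by
    rwa [Polynomial.IsRoot.def, Polynomial.eval_map_algebraMap] at hr
  have hrO : r ∈ O := mem_of_root O (by rw [hPm.leadingCoeff]; exact isUnit_one) hr'
  refine ⟨IsLocalRing.residue O ⟨r, hrO⟩, ?_⟩
  have h1 : P.eval (⟨r, hrO⟩ : O) = 0 := by
    apply Subtype.val_injective
    have h2 := Polynomial.aeval_algebraMap_apply Ω (⟨r, hrO⟩ : O) P
    have h3 : algebraMap O Ω ⟨r, hrO⟩ = r := rfl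
    rw [h3, hr', Polynomial.coe_aeval_eq_eval] at h2
    exact h2.symm
  rw [← hPp, Polynomial.eval_map, Polynomial.eval₂_hom, h1, map_zero]

end Roots

/-! ### the algebraic closure of `K(x)` -/

theorem exists_alg_lift (Fr L M : Type) [Field Fr] [Field L] [Field M] [IsAlgClosed M]
    [Algebra Fr L] [Algebra Fr M] : Nonempty (algebraicClosure Fr L →ₐ[Fr] M) :=
  ⟨IsAlgClosed.lift⟩

/-- The elements of `L` which are algebraic over `K(x)` embed in every algebraically closed field
`M` with a map `K[X] → M` which has the same kernel as the evaluation at `x`. -/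
theorem exists_embed {K L : Type} [Field K] [Field L] [Algebra K L] {k : ℕ} (x : Fin k → L)
    {M : Type} [Field M] [IsAlgClosed M] (φ : A K k →+* M)
    (hφ : ∀ a, φ a = 0 ↔ aeval x a = 0) :
    ∃ (L₀ : Subfield L) (j : L₀ →+* M),
      (∀ a : A K k, ∃ h : aeval x a ∈ L₀, j ⟨aeval x a, h⟩ = φ a) ∧
      ∀ y : L, (∃ P : Polynomial (A K k), P.map (aeval x : A K k →ₐ[K] L).toRingHom ≠ 0 ∧
        P.eval₂ (aeval x : A K k →ₐ[K] L).toRingHom y = 0) → y ∈ L₀ := by
  classical
  set θ : A K k →+* L := (aeval x : A K k →ₐ[K] L).toRingHom with hθ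
  have hθ' : ∀ a, θ a = aeval x a := fun a => rfl
  obtain ⟨φ', hφ'⟩ : ∃ φ' : θ.range →+* M, ∀ a, φ' (θ.rangeRestrict a) = φ a := by
    refine ⟨θ.rangeRestrict.liftOfSurjective θ.rangeRestrict_surjective ⟨φ, ?_⟩, ?_⟩
    · intro a ha
      rw [RingHom.mem_ker] at ha ⊢
      rw [hφ, ← hθ']
      exact congrArg Subtype.val ha
    · intro a
      exact RingHom.liftOfRightInverse_comp_apply θ.rangeRestrict _ _ ⟨φ, _⟩ a
  have hφi : Function.Injective φ' := by
    rw [injective_iff_map_eq_zero]
    intro b hb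
    obtain ⟨a, rfl⟩ := θ.rangeRestrict_surjective b
    rw [hφ', hφ] at hb
    exact Subtype.ext hb
  have hsi : Function.Injective θ.range.subtype := Subtype.val_injective
  let Fr : Type := FractionRing θ.range
  let gL : Fr →+* L := IsFractionRing.lift (K := Fr) hsi
  let gM : Fr →+* M := IsFractionRing.lift (K := Fr) hφi
  have hgL : ∀ a : A K k, gL (algebraMap θ.range Fr (θ.rangeRestrict a)) = aeval x a := fun a =>
    IsFractionRing.lift_algebraMap hsi (θ.rangeRestrict a)
  have hgM : ∀ a : A K k, gM (algebraMap θ.range Fr (θ.rangeRestrict a)) = φ a := fun a =>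
    (IsFractionRing.lift_algebraMap hφi (θ.rangeRestrict a)).trans (hφ' a)
  let algL : Algebra Fr L := gL.toAlgebra
  let algM : Algebra Fr M := gM.toAlgebra
  let N : IntermediateField Fr L := algebraicClosure Fr L
  obtain ⟨ψ⟩ := exists_alg_lift Fr L M
  refine ⟨N.toSubfield, (ψ : N →+* M), ?_, ?_⟩
  · intro a
    have h1 : aeval x a = algebraMap Fr L (algebraMap θ.range Fr (θ.rangeRestrict a)) :=
      (hgL a).symm
    have hmem : aeval x a ∈ N := by rw [h1]; exact N.algebraMap_mem _
    refine ⟨hmem, ?_⟩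
    have h2 : (⟨aeval x a, hmem⟩ : N) =
        algebraMap Fr N (algebraMap θ.range Fr (θ.rangeRestrict a)) := Subtype.ext h1
    have h3 := ψ.commutes (algebraMap θ.range Fr (θ.rangeRestrict a))
    rw [← h2] at h3
    exact h3.trans (hgM a)
  · rintro y ⟨P, hP, hy⟩
    have hcomp : gL.comp ((algebraMap θ.range Fr).comp θ.rangeRestrict) = θ := by
      apply RingHom.ext
      intro a
      exact hgL a
    refine mem_algebraicClosure_iff.2 ⟨P.map ((algebraMap θ.range Fr).comp θ.rangeRestrict),
      ?_, ?_⟩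
    · intro h0
      apply hP
      rw [← hcomp, ← Polynomial.map_map, h0, Polynomial.map_zero]
    · rw [Polynomial.aeval_def, Polynomial.eval₂_map]
      have h1 : (algebraMap Fr L).comp ((algebraMap θ.range Fr).comp θ.rangeRestrict) = θ := hcomp
      rw [h1, hy]

end Place

open Place in
/-- **The place**: a subring `B` of the algebraic closure of `K(X)` which contains `K[X]`, and a
ring homomorphism to `L` which is the evaluation at `x` on `K[X]`, such that every zero in `L` of a
polynomial whose leading coefficient does not vanish at `x` is the image of a zero in `B`. -/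
theorem exists_place {K L : Type} [Field K] [Field L] [Algebra K L] {k : ℕ} (x : Fin k → L) :
    ∃ (B : Subring (Om K k)) (φ : B →+* L),
      (∀ f : A K k, ∃ h : algebraMap (A K k) (Om K k) f ∈ B, φ ⟨_, h⟩ = aeval x f) ∧
      ∀ (P : Polynomial (A K k)) (η : L), aeval x P.leadingCoeff ≠ 0 →
        Polynomial.eval₂ (aeval x : A K k →ₐ[K] L).toRingHom η P = 0 →
          ∃ (β : Om K k) (h : β ∈ B), Polynomial.aeval β P = 0 ∧ φ ⟨β, h⟩ = η := by
  classical
  obtain ⟨O, hO, hOx⟩ := exists_valuation (K := K) x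
  let ι : A K k →+* O := (algebraMap (A K k) (Om K k)).codRestrict O.toSubring hO
  have hι : ∀ a, ((ι a : O) : Om K k) = algebraMap (A K k) (Om K k) a := fun a => rfl
  have hunit : ∀ a, IsUnit (ι a) ↔ aeval x a ≠ 0 := by
    intro a
    have h1 := hOx a
    rw [← hι a] at h1
    rw [Ne, ← h1, ValuationSubring.valuation_eq_one_iff]
    constructor
    · intro h h'
      exact absurd h h'.ne
    · intro h
      exact le_antisymm (O.valuation_le_one _) (not_lt.1 h)
  let φ₀ : A K k →+* IsLocalRing.ResidueField O := (IsLocalRing.residue O).comp ι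
  have hφ₀ : ∀ a, φ₀ a = 0 ↔ aeval x a = 0 := by
    intro a
    have h1 : φ₀ a = IsLocalRing.residue O (ι a) := rfl
    rw [h1, IsLocalRing.residue_eq_zero_iff, IsLocalRing.mem_maximalIdeal, mem_nonunits_iff,
      hunit, not_not]
  obtain ⟨L₀, j, hj, hL₀⟩ := exists_embed x φ₀ hφ₀
  have hji : Function.Injective j := j.injective
  let e : L₀ ≃+* j.range := RingEquiv.ofBijective j.rangeRestrict
    ⟨fun a b h => hji (congrArg Subtype.val h), j.rangeRestrict_surjective⟩
  have he : ∀ a : L₀, ((e a : j.range) : IsLocalRing.ResidueField O) = j a := fun a => rfl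
  let B₀ : Subring O := j.range.comap (IsLocalRing.residue O)
  let ρ : B₀ →+* j.range := (IsLocalRing.residue O).restrict B₀ j.range fun b hb => hb
  have hρ : ∀ b : B₀, ((ρ b : j.range) : IsLocalRing.ResidueField O) =
    IsLocalRing.residue O b := fun b => rfl
  let φ₁ : B₀ →+* L := (L₀.subtype.comp (e.symm : j.range →+* L₀)).comp ρ
  have hφ₁ : ∀ (b : B₀) (y : L₀), IsLocalRing.residue O (b : O) = j y → φ₁ b = y := by
    intro b y h
    have h1 : ρ b = e y := Subtype.ext (by rw [hρ, he, h])
    change ((e.symm (ρ b) : L₀) : L) = y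
    rw [h1, e.symm_apply_apply]
  let B : Subring (Om K k) := B₀.map O.subtype
  have hB : ∀ b : B, ∃ h : (b : Om K k) ∈ O, (⟨b, h⟩ : O) ∈ B₀ := by
    rintro ⟨_, b, hb, rfl⟩
    exact ⟨b.2, hb⟩
  let τ : B →+* B₀ :=
    { toFun := fun b => ⟨⟨b, (hB b).1⟩, (hB b).2⟩
      map_one' := rfl
      map_mul' := fun _ _ => rfl
      map_zero' := rfl
      map_add' := fun _ _ => rfl }
  refine ⟨B, φ₁.comp τ, ?_, ?_⟩
  · intro f
    obtain ⟨hf, hjf⟩ := hj f
    have h1 : ι f ∈ B₀ := ⟨⟨aeval x f, hf⟩, hjf⟩
    refine ⟨⟨ι f, h1, rfl⟩, ?_⟩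
    exact hφ₁ _ ⟨aeval x f, hf⟩ hjf.symm
  · intro P η hlc hη
    have hPθ : P.map (aeval x : A K k →ₐ[K] L).toRingHom ≠ 0 := by
      intro h
      apply hlc
      have h1 := congrArg (fun R => Polynomial.coeff R P.natDegree) h
      simp only [Polynomial.coeff_map, Polynomial.coeff_zero] at h1
      exact h1
    have hη₀ := hL₀ η ⟨P, hPθ, hη⟩
    have hιi : Function.Injective ι := fun a b h => alg_inj K k (congrArg Subtype.val h)
    have hlcι : (P.map ι).leadingCoeff = ι P.leadingCoeff :=
      Polynomial.leadingCoeff_map_of_injective hιi P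
    have hu : IsUnit (P.map ι).leadingCoeff := by
      rw [hlcι, hunit]
      exact hlc
    have hroot : ((P.map ι).map (IsLocalRing.residue O)).eval (j ⟨η, hη₀⟩) = 0 := by
      rw [Polynomial.map_map, Polynomial.eval_map]
      let θ₀ : A K k →+* L₀ := (aeval x : A K k →ₐ[K] L).toRingHom.codRestrict L₀.toSubring
        fun a => (hj a).1
      have h1 : (IsLocalRing.residue O).comp ι = j.comp θ₀ := by
        apply RingHom.ext
        intro a
        exact (hj a).2.symm
      rw [h1, ← Polynomial.hom_eval₂]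
      have h2 : Polynomial.eval₂ θ₀ ⟨η, hη₀⟩ P = 0 := by
        apply Subtype.val_injective
        have h3 := Polynomial.hom_eval₂ P θ₀ L₀.subtype ⟨η, hη₀⟩
        have h4 : L₀.subtype.comp θ₀ = (aeval x : A K k →ₐ[K] L).toRingHom := by
          apply RingHom.ext
          intro a
          rfl
        rw [h4] at h3
        exact h3.trans hη
      rw [h2, map_zero]
    obtain ⟨β, hβ, hβη⟩ := lift_root O hu _ hroot
    have hβ₀ : β ∈ B₀ := ⟨⟨η, hη₀⟩, hβη.symm⟩
    refine ⟨β, ⟨β, hβ₀, rfl⟩, ?_, ?_⟩
    · have h1 := congrArg (fun z : O => (z : Om K k)) hβ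
      rw [Polynomial.eval_map] at h1
      have h2 := Polynomial.hom_eval₂ P ι O.subtype β
      have h3 : O.subtype.comp ι = algebraMap (A K k) (Om K k) := by
        apply RingHom.ext
        intro a
        rfl
      rw [h3] at h2
      rw [Polynomial.aeval_def]
      exact h2.symm.trans h1
    · exact hφ₁ _ ⟨η, hη₀⟩ hβη

end Pool.Agent.QS
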