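import Pool.Agent.QSP.Low

/-! # Transfer of all relations of degree at most `d` -/

namespace Pool.Agent.QS

open MvPolynomial

variable {K L : Type} [Field K] [Field L] [Algebra K L] {k : ℕ}

/-- **Transfer of relations.** For a point `x` without relations of degree at most `d ^ (ρ + 1)` a
polynomial `P` of degree at most `d` vanishes at `x` and a linear combination of `ρ` specialised
elements if and only if it vanishes at the generic point and the same combination. -/
theorem transfer_rel {d ρ : ℕ} (x : Fin k → L)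
    (hx : ∀ f : A K k, f.totalDegree ≤ d ^ (ρ + 1) → aeval x f = 0 → f = 0)
    (B : Subring (Om K k)) (φ : B →+* L)
    (hφ : ∀ f : A K k, ∃ h : algebraMap (A K k) (Om K k) f ∈ B, φ ⟨_, h⟩ = aeval x f)
    (β : Fin ρ → Om K k) (hβ : ∀ a, β a ∈ B) (hE : ∀ a, Ex K k d (β a)) (c : Fin ρ → K)
    (P : Polynomial (A K k)) (hPw : wd P ≤ d) :
    Polynomial.eval₂ (aeval x : A K k →ₐ[K] L).toRingHom
        (∑ a, algebraMap K L (c a) * φ ⟨β a, hβ a⟩) P = 0 ↔
      Polynomial.aeval (∑ a, algebraMap K (Om K k) (c a) * β a) P = 0 := by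
  classical
  rcases eq_or_ne P 0 with hP0 | hP0
  · rw [hP0, Polynomial.eval₂_zero, map_zero]
    exact ⟨fun _ => rfl, fun _ => rfl⟩
  -- the linear combination in `B`
  have hcB : ∀ a : K, ∃ h : algebraMap K (Om K k) a ∈ B, φ ⟨_, h⟩ = algebraMap K L a := by
    intro a
    obtain ⟨h, h'⟩ := hφ (C a)
    have h2 : algebraMap (A K k) (Om K k) (C a) = algebraMap K (Om K k) a := by
      rw [← MvPolynomial.algebraMap_eq, ← IsScalarTower.algebraMap_apply]
    refine ⟨h2 ▸ h, ?_⟩
    rw [aeval_C] at h'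
    rw [← h']
    congr 1
  choose hcm hcφ using hcB
  let zB : B := ∑ a, ⟨algebraMap K (Om K k) (c a), hcm _⟩ * ⟨β a, hβ a⟩
  have hz1 : (zB : Om K k) = ∑ a, algebraMap K (Om K k) (c a) * β a := by
    change B.subtype zB = _
    simp only [zB, map_sum, map_mul]
    rfl
  have hz2 : φ zB = ∑ a, algebraMap K L (c a) * φ ⟨β a, hβ a⟩ := by
    simp only [zB, map_sum, map_mul, hcφ]
  rw [← hz1, ← hz2]
  have hsp : ∀ P : Polynomial (A K k), ∃ h : Polynomial.aeval (zB : Om K k) P ∈ B, φ ⟨_, h⟩ =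
      Polynomial.eval₂ (aeval x : A K k →ₐ[K] L).toRingHom (φ zB) P := fun P =>
    spec_eval x B φ hφ P _ zB.2
  constructor
  · intro hP
    have hzE : Ex K k (d ^ ρ) (zB : Om K k) := by
      rw [hz1]
      exact Ex_sum_fin β hE c
    obtain ⟨N, hNi, hNw, hN⟩ := exists_irreducible hzE
    have hNL : Polynomial.eval₂ (aeval x : A K k →ₐ[K] L).toRingHom (φ zB) N = 0 := by
      obtain ⟨h1, h2⟩ := hsp N
      rw [← h2]
      have h3 : (⟨Polynomial.aeval (zB : Om K k) N, h1⟩ : B) = 0 := Subtype.ext hN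
      rw [h3, map_zero]
    have hnd : ∀ G : Polynomial (A K k), G ≠ 0 → G.natDegree ≤ wd G := fun G hG =>
      (Nat.le_add_left _ _).trans (le_wd G _ (Polynomial.leadingCoeff_ne_zero.2 hG))
    have hNd := natDegree_pos _ N hNi.ne_zero hN
    have hS : Polynomial.resultant N P = 0 := by
      apply hx
      · refine (resultant_degree N P hNw hPw ((hnd N hNi.ne_zero).trans hNw)
          ((hnd P hP0).trans hPw)).trans ?_
        rw [pow_succ]
      · obtain ⟨p, q, -, -, hpq⟩ := Polynomial.exists_mul_add_mul_eq_C_resultant N P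
          le_rfl le_rfl (Or.inl hNd.ne')
        have h1 := congrArg (Polynomial.eval₂ (aeval x : A K k →ₐ[K] L).toRingHom (φ zB)) hpq
        rw [Polynomial.eval₂_add, Polynomial.eval₂_mul, Polynomial.eval₂_mul, hNL, hP, zero_mul,
          zero_mul, add_zero, Polynomial.eval₂_C] at h1
        exact h1.symm
    exact zero_of_resultant hNi hN hS
  · intro hP
    obtain ⟨h1, h2⟩ := hsp P
    rw [← h2]
    have h3 : (⟨Polynomial.aeval (zB : Om K k) P, h1⟩ : B) = 0 := Subtype.ext hP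
    rw [h3, map_zero]

/-- the same for polynomials in `Y, X_1, .., X_k` -/
theorem transfer_rel' {d ρ : ℕ} (x : Fin k → L)
    (hx : ∀ f : A K k, f.totalDegree ≤ d ^ (ρ + 1) → aeval x f = 0 → f = 0)
    (B : Subring (Om K k)) (φ : B →+* L)
    (hφ : ∀ f : A K k, ∃ h : algebraMap (A K k) (Om K k) f ∈ B, φ ⟨_, h⟩ = aeval x f)
    (β : Fin ρ → Om K k) (hβ : ∀ a, β a ∈ B) (hE : ∀ a, Ex K k d (β a)) (c : Fin ρ → K)
    (R : MvPolynomial (Fin (k + 1)) K) (hR : R.totalDegree ≤ d) :
    aeval (Fin.cons (∑ a, algebraMap K L (c a) * φ ⟨β a, hβ a⟩) x : Fin (k + 1) → L) R = 0 ↔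
      aeval (Fin.cons (∑ a, algebraMap K (Om K k) (c a) * β a) (gx K k) :
        Fin (k + 1) → Om K k) R = 0 := by
  have h1 : wd (finSuccEquiv K k R) ≤ d := by
    rw [← wd_symm, AlgEquiv.symm_apply_apply]
    exact hR
  rw [aeval_cons_L, aeval_cons_L, algm_eq, ← Polynomial.aeval_def]
  exact transfer_rel x hx B φ hφ β hβ hE c _ h1

/-- lifting of elements with a relation: for `η` with a relation of degree at most `d` there is an
element of `B` over the generic point with the same relation which specialises to `η`. -/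
theorem exists_lift {d : ℕ} (x : Fin k → L)
    (hx : ∀ f : A K k, f.totalDegree ≤ d → aeval x f = 0 → f = 0)
    (B : Subring (Om K k)) (φ : B →+* L)
    (hroot : ∀ (P : Polynomial (A K k)) (η : L), aeval x P.leadingCoeff ≠ 0 →
      Polynomial.eval₂ (aeval x : A K k →ₐ[K] L).toRingHom η P = 0 →
        ∃ (β : Om K k) (h : β ∈ B), Polynomial.aeval β P = 0 ∧ φ ⟨β, h⟩ = η)
    (η : L) (hη : ExL K d x η) : ∃ (β : Om K k) (h : β ∈ B), Ex K k d β ∧ φ ⟨β, h⟩ = η := by
  obtain ⟨P, hP0, hPw, hP⟩ := (ExL_iff d x η).1 hη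
  have hlc : P.leadingCoeff ≠ 0 := Polynomial.leadingCoeff_ne_zero.2 hP0
  have h1 : aeval x P.leadingCoeff ≠ 0 := by
    intro h
    refine hlc (hx _ ?_ h)
    exact (Nat.le_add_right _ _).trans ((le_wd P _ hlc).trans hPw)
  obtain ⟨β, hβ, hβ0, hφβ⟩ := hroot P η h1 hP
  exact ⟨β, hβ, (Ex_iff d β).2 ⟨P, hP0, hPw, hβ0⟩, hφβ⟩

end Pool.Agent.QS
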