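import Pool.Agent.QS.Wd

/-! # The total degree of a resultant -/

namespace Pool.Agent.QS

open MvPolynomial

variable {K : Type} [Field K] {k : ℕ}

/-- Bezout's bound for the total degree of the resultant. -/
theorem resultant_degree (f g : Polynomial (A K k)) {m n M N : ℕ} (hM : wd f ≤ M)
    (hN : wd g ≤ N) (hm : m ≤ M) (hn : n ≤ N) :
    (Polynomial.resultant f g m n).totalDegree ≤ M * N := by
  classical
  rw [Polynomial.resultant, Matrix.det_apply]
  refine totalDegree_finsetSum_le fun σ _ => ?_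
  have hsm : ∀ (u : ℤˣ) (P : A K k), (u • P).totalDegree ≤ P.totalDegree := by
    intro u P
    rcases Int.units_eq_one_or u with h | h
    · rw [h, one_smul]
    · rw [h, Units.neg_smul, one_smul, totalDegree_neg]
  refine (hsm _ _).trans ?_
  by_cases h0 : ∏ i, Polynomial.sylvester f g m n (σ i) i = 0
  · rw [h0, totalDegree_zero]
    exact Nat.zero_le _
  have hne : ∀ i, Polynomial.sylvester f g m n (σ i) i ≠ 0 := fun i =>
    (Finset.prod_ne_zero_iff.1 h0) i (Finset.mem_univ i)
  refine (totalDegree_finsetProd _ _).trans ?_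
  -- the entries
  have h1 : ∀ j : Fin m, (Polynomial.sylvester f g m n (σ (Fin.castAdd n j))
      (Fin.castAdd n j)).totalDegree + (σ (Fin.castAdd n j) : ℕ) ≤ N + (j : ℕ) := by
    intro j
    have h2 := hne (Fin.castAdd n j)
    simp only [Polynomial.sylvester, Matrix.of_apply, Fin.addCases_left] at h2 ⊢
    by_cases h3 : (σ (Fin.castAdd n j) : ℕ) ∈ Set.Icc (j : ℕ) (j + n)
    · rw [if_pos h3] at h2 ⊢
      have h4 := (le_wd g _ h2).trans hN
      have h5 := h3.1
      omega
    · rw [if_neg h3] at h2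
      exact absurd rfl h2
  have h2 : ∀ j : Fin n, (Polynomial.sylvester f g m n (σ (Fin.natAdd m j))
      (Fin.natAdd m j)).totalDegree + (σ (Fin.natAdd m j) : ℕ) ≤ M + (j : ℕ) := by
    intro j
    have h2 := hne (Fin.natAdd m j)
    simp only [Polynomial.sylvester, Matrix.of_apply, Fin.addCases_right] at h2 ⊢
    by_cases h3 : (σ (Fin.natAdd m j) : ℕ) ∈ Set.Icc (j : ℕ) (j + m)
    · rw [if_pos h3] at h2 ⊢
      have h4 := (le_wd f _ h2).trans hM
      have h5 := h3.1
      omega
    · rw [if_neg h3] at h2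
      exact absurd rfl h2
  have h3 : ∑ i, (Polynomial.sylvester f g m n (σ i) i).totalDegree + ∑ i, (σ i : ℕ) ≤
      ∑ j : Fin m, (N + (j : ℕ)) + ∑ j : Fin n, (M + (j : ℕ)) := by
    rw [← Finset.sum_add_distrib, Fin.sum_univ_add]
    exact add_le_add (Finset.sum_le_sum fun j _ => h1 j) (Finset.sum_le_sum fun j _ => h2 j)
  have h4 : ∑ i, (σ i : ℕ) = ∑ j : Fin m, (j : ℕ) + ∑ j : Fin n, (m + (j : ℕ)) := by
    rw [Equiv.sum_comp σ (fun i : Fin (m + n) => (i : ℕ)), Fin.sum_univ_add]
    simp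
  rw [h4] at h3
  simp only [Finset.sum_add_distrib, Finset.sum_const, Finset.card_univ, Fintype.card_fin,
    smul_eq_mul] at h3
  have h5 : ∑ i, (Polynomial.sylvester f g m n (σ i) i).totalDegree + n * m ≤ m * N + n * M := by
    omega
  obtain ⟨a, rfl⟩ := Nat.exists_eq_add_of_le hm
  obtain ⟨b, rfl⟩ := Nat.exists_eq_add_of_le hn
  nlinarith

end Pool.Agent.QS
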