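import Pool.Agent.QSP.Bez

/-! # Degrees of relations of sums -/

namespace Pool.Agent.QS

open MvPolynomial

variable {K : Type} [Field K] {k : ℕ}

theorem wd_add_le {P R : Polynomial (A K k)} {D : ℕ} (hP : wd P ≤ D) (hR : wd R ≤ D) :
    wd (P + R) ≤ D := by
  rw [← wd_symm] at hP hR ⊢
  rw [map_add]
  exact (totalDegree_add _ _).trans (max_le hP hR)

theorem wd_sum_le {ι : Type} (s : Finset ι) (f : ι → Polynomial (A K k)) {D : ℕ}
    (h : ∀ i ∈ s, wd (f i) ≤ D) : wd (∑ i ∈ s, f i) ≤ D := by
  rw [← wd_symm, map_sum]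
  refine totalDegree_finsetSum_le fun i hi => ?_
  rw [wd_symm]
  exact h i hi

theorem wd_mul_le (P R : Polynomial (A K k)) : wd (P * R) ≤ wd P + wd R := by
  rw [← wd_symm, ← wd_symm, ← wd_symm, map_mul]
  exact totalDegree_mul _ _

theorem wd_pow_le (P : Polynomial (A K k)) (n : ℕ) : wd (P ^ n) ≤ n * wd P := by
  rw [← wd_symm, ← wd_symm, map_pow]
  exact totalDegree_pow _ _

theorem wd_C_le (a : A K k) : wd (Polynomial.C a) ≤ a.totalDegree := by
  refine wd_le _ _ fun j hj => ?_
  rw [Polynomial.coeff_C] at hj ⊢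
  split_ifs at hj ⊢ with h
  · rw [h]
    exact le_rfl
  · exact absurd rfl hj

/-- the inclusion of `K[X_1, .., X_k]` into the ring with one more variable -/
noncomputable def inc (K : Type) [Field K] (k : ℕ) : A K k →+* A K (k + 1) :=
  (rename Fin.succ : A K k →ₐ[K] A K (k + 1)).toRingHom

theorem inc_degree (a : A K k) : (inc K k a).totalDegree ≤ a.totalDegree :=
  totalDegree_rename_le _ _

theorem aeval_inc {L : Type} [CommRing L] [Algebra K L] (y : L) (x : Fin k → L) (a : A K k) :
    aeval (Fin.cons y x : Fin (k + 1) → L) (inc K k a) = aeval x a := by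
  have h : aeval (Fin.cons y x : Fin (k + 1) → L) (rename Fin.succ a) = aeval x a := by
    rw [aeval_rename]
    rfl
  exact h

theorem aeval_gx (a : A K k) : aeval (gx K k) a = algebraMap (A K k) (Om K k) a := by
  have h : (aeval (gx K k) : A K k →ₐ[K] Om K k) =
      (Algebra.ofId (A K k) (Om K k)).restrictScalars K := by
    refine MvPolynomial.algHom_ext fun i => ?_
    rw [aeval_X]
    rfl
  exact DFunLike.congr_fun h a

/-- `G(Y - T)` as a polynomial in `T` over `K[Y, X]` -/
noncomputable def shf (G : Polynomial (A K k)) : Polynomial (A K (k + 1)) :=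
  (G.map (inc K k)).comp (Polynomial.C (X 0) - Polynomial.X)

theorem wd_shf (G : Polynomial (A K k)) : wd (shf G) ≤ wd G := by
  rw [shf, Polynomial.comp, Polynomial.eval₂_eq_sum_range]
  refine wd_sum_le _ _ fun j _ => ?_
  rw [Polynomial.coeff_map]
  by_cases h0 : G.coeff j = 0
  · rw [h0, map_zero, Polynomial.C_0, zero_mul]
    refine (wd_le _ 0 fun j hj => ?_).trans (Nat.zero_le _)
    exact absurd (Polynomial.coeff_zero j) hj
  have h1 : wd (Polynomial.C (X 0) - Polynomial.X : Polynomial (A K (k + 1))) ≤ 1 := by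
    refine wd_le _ _ fun j hj => ?_
    rw [Polynomial.coeff_sub, Polynomial.coeff_C, Polynomial.coeff_X] at hj ⊢
    by_cases hj0 : j = 0
    · subst hj0
      simp
    · by_cases hj1 : j = 1
      · subst hj1
        simp
      · rw [if_neg hj0, if_neg (fun h => hj1 h.symm), sub_zero] at hj
        exact absurd rfl hj
  calc wd (Polynomial.C (inc K k (G.coeff j)) *
        (Polynomial.C (X 0) - Polynomial.X : Polynomial (A K (k + 1))) ^ j)
      ≤ (inc K k (G.coeff j)).totalDegree + j * 1 :=
        (wd_mul_le _ _).trans (add_le_add (wd_C_le _) ((wd_pow_le _ _).trans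
          (Nat.mul_le_mul_left j h1)))
    _ ≤ (G.coeff j).totalDegree + j := by
        rw [mul_one]
        exact Nat.add_le_add_right (inc_degree _) j
    _ ≤ wd G := le_wd G j h0

theorem wd_map_inc (P : Polynomial (A K k)) : wd (P.map (inc K k)) ≤ wd P := by
  refine wd_le _ _ fun j hj => ?_
  rw [Polynomial.coeff_map] at hj ⊢
  have h0 : P.coeff j ≠ 0 := by
    intro h
    rw [h, map_zero] at hj
    exact hj rfl
  exact (Nat.add_le_add_right (inc_degree _) j).trans (le_wd P j h0)

theorem natDegree_shf (G : Polynomial (A K k)) : (shf G).natDegree ≤ G.natDegree := by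
  rw [shf]
  refine Polynomial.natDegree_comp_le.trans ?_
  have h1 : (Polynomial.C (X 0) - Polynomial.X : Polynomial (A K (k + 1))).natDegree ≤ 1 := by
    refine (Polynomial.natDegree_sub_le _ _).trans (max_le ?_ Polynomial.natDegree_X_le)
    rw [Polynomial.natDegree_C]
    exact Nat.zero_le _
  calc (G.map (inc K k)).natDegree *
        (Polynomial.C (X 0) - Polynomial.X : Polynomial (A K (k + 1))).natDegree
      ≤ G.natDegree * 1 := Nat.mul_le_mul Polynomial.natDegree_map_le h1
    _ = G.natDegree := mul_one _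

/-- the evaluation of `Y` and `X` -/
noncomputable def evy {L : Type} [CommRing L] [Algebra K L] (y : L) (x : Fin k → L) :
    A K (k + 1) →+* L := (aeval (Fin.cons y x : Fin (k + 1) → L)).toRingHom

theorem evy_comp_inc {L : Type} [CommRing L] [Algebra K L] (y : L) (x : Fin k → L) :
    (evy (K := K) y x).comp (inc K k) = (aeval x : A K k →ₐ[K] L).toRingHom := by
  ext a
  · exact (aeval_inc y x _).trans rfl
  · exact (aeval_inc y x _).trans rfl

theorem eval_shf {L : Type} [CommRing L] [Algebra K L] (y : L) (x : Fin k → L)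
    (G : Polynomial (A K k)) (t : L) :
    ((shf G).map (evy (K := K) y x)).eval t =
      (G.map (aeval x : A K k →ₐ[K] L).toRingHom).eval (y - t) := by
  have h0 : evy (K := K) y x (X 0) = y := by
    change aeval (Fin.cons y x : Fin (k + 1) → L) (X 0) = y
    rw [aeval_X, Fin.cons_zero]
  rw [shf, Polynomial.map_comp, Polynomial.map_map, evy_comp_inc, Polynomial.eval_comp]
  congr 1
  rw [Polynomial.map_sub, Polynomial.map_C, Polynomial.map_X, Polynomial.eval_sub,
    Polynomial.eval_C, Polynomial.eval_X, h0]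

theorem algm_eq : (aeval (gx K k) : A K k →ₐ[K] Om K k).toRingHom =
    algebraMap (A K k) (Om K k) := RingHom.ext fun a => aeval_gx a

theorem algm_inj : Function.Injective (algebraMap (A K k) (Om K k)) := by
  rw [IsScalarTower.algebraMap_eq (A K k) (Q K k) (Om K k)]
  exact (algebraMap (Q K k) (Om K k)).injective.comp (IsFractionRing.injective _ _)

/-- **Sums**: relations of degrees `m`, `n` give a relation of degree `m n` of the sum. -/
theorem Ex_add {m n : ℕ} {u v : Om K k} (hu : Ex K k m u) (hv : Ex K k n v) :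
    Ex K k (m * n) (u + v) := by
  classical
  obtain ⟨G, hG0, hGw, hG⟩ := (Ex_iff m u).1 hu
  obtain ⟨P, hP0, hPw, hP⟩ := (Ex_iff n v).1 hv
  have hPn := natDegree_pos v P hP0 hP
  have hGm : G.natDegree ≤ m := by
    refine le_trans ?_ hGw
    exact (Nat.le_add_left _ _).trans (le_wd G _ (Polynomial.leadingCoeff_ne_zero.2 hG0))
  have hPm : P.natDegree ≤ n := by
    refine le_trans ?_ hPw
    exact (Nat.le_add_left _ _).trans (le_wd P _ (Polynomial.leadingCoeff_ne_zero.2 hP0))
  set R : A K (k + 1) := Polynomial.resultant (shf G) (P.map (inc K k)) G.natDegree P.natDegree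
    with hR
  refine ⟨R, ?_, ?_, ?_⟩
  · -- `R` is not zero
    set GO := G.map (algebraMap (A K k) (Om K k)) with hGO
    set PO := P.map (algebraMap (A K k) (Om K k)) with hPO
    have hGO0 : GO ≠ 0 := by
      intro h
      exact hG0 ((Polynomial.map_eq_zero_iff algm_inj).1 h)
    have hPO0 : PO ≠ 0 := by
      intro h
      exact hP0 ((Polynomial.map_eq_zero_iff algm_inj).1 h)
    have : Infinite (Om K k) := IsAlgClosed.instInfinite
    obtain ⟨y, hy⟩ := Infinite.exists_notMem_finset
      ((GO.roots.toFinset ×ˢ PO.roots.toFinset).image fun z : Om K k × Om K k => z.1 + z.2)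
    intro h0
    have h1 : evy (K := K) y (gx K k) R = 0 := by rw [h0, map_zero]
    have hPy : (P.map (inc K k)).map (evy (K := K) y (gx K k)) = PO := by
      rw [Polynomial.map_map, evy_comp_inc, algm_eq]
    have hPd : PO.natDegree = P.natDegree := Polynomial.natDegree_map_eq_of_injective algm_inj P
    rw [hR, ← Polynomial.resultant_map_map, hPy, Polynomial.resultant_comm, ← hPd,
      Polynomial.resultant_eq_prod_eval _ _ _
        (Polynomial.natDegree_map_le.trans (natDegree_shf G)) (IsAlgClosed.splits PO)] at h1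
    have h2 : (PO.roots.map fun t =>
        ((shf G).map (evy (K := K) y (gx K k))).eval t).prod = 0 := by
      rcases mul_eq_zero.1 h1 with h3 | h3
      · exact absurd h3 (pow_ne_zero _ (neg_ne_zero.2 one_ne_zero))
      · rcases mul_eq_zero.1 h3 with h4 | h4
        · exact absurd h4 (pow_ne_zero _ (Polynomial.leadingCoeff_ne_zero.2 hPO0))
        · exact h4
    obtain ⟨t, ht, ht0⟩ := Multiset.mem_map.1 (Multiset.prod_eq_zero_iff.1 h2)
    rw [eval_shf, algm_eq] at ht0
    apply hy
    refine Finset.mem_image.2 ⟨(y - t, t), Finset.mem_product.2 ⟨?_, ?_⟩, by simp⟩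
    · rw [Multiset.mem_toFinset, Polynomial.mem_roots hGO0]
      exact ht0
    · rw [Multiset.mem_toFinset]
      exact ht
  · exact resultant_degree _ _ ((wd_shf G).trans hGw) ((wd_map_inc P).trans hPw) hGm hPm
  · obtain ⟨p, q, -, -, hpq⟩ := Polynomial.exists_mul_add_mul_eq_C_resultant (shf G)
      (P.map (inc K k)) (natDegree_shf G) Polynomial.natDegree_map_le (Or.inr hPn.ne')
    have h1 := congrArg (fun W => (W.map (evy (K := K) (u + v) (gx K k))).eval v) hpq
    simp only [Polynomial.map_add, Polynomial.map_mul, Polynomial.eval_add, Polynomial.eval_mul,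
      Polynomial.map_C, Polynomial.eval_C] at h1
    rw [eval_shf, Polynomial.map_map, evy_comp_inc, algm_eq, add_sub_cancel_right,
      Polynomial.eval_map_algebraMap, Polynomial.eval_map_algebraMap, hG, hP, zero_mul, zero_mul,
      add_zero] at h1
    exact h1.symm

end Pool.Agent.QS
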